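import Pool.Agent.helper51.VR.Spec

/-! Row vr:DGS: generators of the dual and the sets with one prime less. -/

set_option autoImplicit false

namespace Pool.Agent.VR

open Pool.Agent.RB NumberField IsDedekindDomain Module
open scoped nonZeroDivisors Real Classical IsMulCommutative

private theorem DGS_core (hDTX : DTX_stmt) {R Q : Type} [CommRing R] [CommRing Q] (f : R →+* Q)
    (Θ : Q) (c : R) (hΘ : f c * Θ = -Θ) (n r N : ℕ) (hN : N ≤ r) (g : Fin N → Fin (r + 1) → R)
    (M : Matrix (Fin (r + 1)) (Fin (r + 1)) R) (d : Fin (r + 1) → ℕ) (hd : ∀ i, Odd (d i))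
    (a : Fin (r + 1) → Fin N → R) (b : Fin (r + 1) → Fin (r + 1) → R)
    (h : ∀ i j, d i • M i j = ∑ k, a i k * g k j +
      ∑ l, b i l * (if l = j then n • (1 - c) else 0))
    (hmin : ∀ (j₀ : Fin (r + 1)) (ρ : Fin r → Fin N ⊕ Fin (r + 1)), ∃ (e : ℕ) (y : R), Odd e ∧
      (e : Q) * (Θ * f (Matrix.det (fun i j : Fin r => Sum.elim (fun k => g k (j₀.succAbove j))
        (fun l => if l = j₀.succAbove j then n • (1 - c) else 0) (ρ i)))) =
          ((2 * n) ^ r : ℕ) * f y) :
    ∃ (e : ℕ) (y : R), Odd e ∧ (e : Q) * (Θ * f (Matrix.det M)) = ((2 * n) ^ (r + 1) : ℕ) * f y := by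
  let I : Ideal R :=
    { carrier := {z | ∃ (e : ℕ) (y : R), Odd e ∧
        (e : Q) * (Θ * f z) = ((2 * n) ^ (r + 1) : ℕ) * f y}
      add_mem' := by
        rintro z w ⟨e₁, y₁, h1, h2⟩ ⟨e₂, y₂, h3, h4⟩
        refine ⟨e₁ * e₂, e₂ * y₁ + e₁ * y₂, h1.mul h3, ?_⟩
        rw [map_add, map_add, map_mul, map_mul, map_natCast, map_natCast, Nat.cast_mul]
        linear_combination (e₂ : Q) * h2 + (e₁ : Q) * h4
      zero_mem' := ⟨1, 0, odd_one, by simp⟩
      smul_mem' := by
        rintro x z ⟨e, y, h1, h2⟩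
        refine ⟨e, x * y, h1, ?_⟩
        rw [smul_eq_mul, map_mul, map_mul]
        linear_combination (f x) * h2 }
  have hI : ∀ z : R, z ∈ I ↔ ∃ (e : ℕ) (y : R), Odd e ∧
      (e : Q) * (Θ * f z) = ((2 * n) ^ (r + 1) : ℕ) * f y := fun z => Iff.rfl
  have key : Matrix.det (Matrix.of fun i j => (d i : R) * M i j) ∈ I := by
    refine hDTX R r N hN (n • (1 - c)) g (Matrix.of fun i j => (d i : R) * M i j) a b ?_ I ?_
    · intro i j
      rw [Matrix.of_apply, ← nsmul_eq_mul, h i j]
      congr 1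
      rw [Finset.sum_eq_single j]
      · rw [if_pos rfl]
      · intro l _ hl
        rw [if_neg hl, mul_zero]
      · intro hj
        exact absurd (Finset.mem_univ j) hj
    · intro j₀ ρ
      obtain ⟨e, y, h1, h2⟩ := hmin j₀ ρ
      rw [hI]
      refine ⟨e, y, h1, ?_⟩
      rw [map_mul, map_nsmul, map_sub, map_one, nsmul_eq_mul]
      push_cast at h2 ⊢
      rw [pow_succ]
      linear_combination (2 * (n : Q)) * h2 - (e : Q) * n * f (Matrix.det (fun i j : Fin r =>
        Sum.elim (fun k => g k (j₀.succAbove j))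
        (fun l => if l = j₀.succAbove j then n • (1 - c) else 0) (ρ i))) * hΘ
  rw [Matrix.det_mul_column, hI] at key
  obtain ⟨e, y, h1, h2⟩ := key
  refine ⟨e * ∏ i, d i, y, h1.mul ?_, ?_⟩
  · have : ∀ s : Finset (Fin (r + 1)), Odd (∏ i ∈ s, d i) := by
      intro s
      induction s using Finset.induction_on with
      | empty => simp
      | insert i s hi ih =>
        rw [Finset.prod_insert hi]
        exact (hd i).mul ih
    exact this _
  · rw [← h2, map_mul, map_prod]
    push_cast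
    rw [Finset.prod_congr rfl (fun i _ => map_natCast f (d i))]
    ring

section

variable (F H : Type) [Field F] [NumberField F] [Field H] [NumberField H] [Algebra F H]
  [IsAbelianGalois F H]

private noncomputable def DGS_h : MonoidAlgebra ℤ (H ≃ₐ[F] H) →+* QGr F H :=
  MonoidAlgebra.mapRingHom (H ≃ₐ[F] H) (Int.castRingHom ℚ)

private theorem DGS_h_apply (y : MonoidAlgebra ℤ (H ≃ₐ[F] H)) : toQ y = DGS_h F H y := rfl

private theorem DGS_h_single (σ : H ≃ₐ[F] H) : DGS_h F H (MonoidAlgebra.single σ 1) = sg σ := by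
  unfold DGS_h sg
  exact (MonoidAlgebra.mapRingHom_single _ _ _).trans (by simp)

end

theorem DGS (hDTX : DTX_stmt) (hIDN : IDN_stmt) (hPWR : PWR_stmt) (hFCT : FCT_stmt) :
    DGS_stmt := by
  intro F H _ _ _ _ _ _ _ r N D hN hDG Θ hΘ hsub n u hDS φ hφ
  obtain ⟨g, hg, hgen⟩ := hDG
  obtain ⟨hn, hu, hord⟩ := hDS
  choose d a b hd hab using fun i => hgen (φ i) (hφ i)
  obtain ⟨-, -, -, -, f5, f6, -, -⟩ := hFCT F H (r + 1) D
  refine DGS_core hDTX (DGS_h F H) Θ (MonoidAlgebra.single D.c 1) ?_ n r N hN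
    (fun k j => g k (u j)) (fun i j => φ i (u j)) d hd a b ?_ ?_
  · rw [DGS_h_single]
    exact hΘ
  · intro i j
    rw [hab i (u j) (hu j).1 (hu j).2]
    congr 1
    refine Finset.sum_congr rfl fun l _ => ?_
    rw [hord l j]
  · intro j₀ ρ
    have hinj : Function.Injective j₀.succAbove := Fin.succAbove_right_injective
    have hsubD : Rub (sub D j₀.succAbove hinj) Θ := by
      refine hsub _ rfl rfl ?_
      rintro _ ⟨i, rfl⟩
      exact ⟨j₀.succAbove i, rfl⟩
    obtain ⟨-, -, -, -, k5, -, -, -⟩ := hFCT F H r (sub D j₀.succAbove hinj)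
    have hmem : ∀ j : Fin r, u (j₀.succAbove j) ∈ UU (sub D j₀.succAbove hinj) := by
      intro j
      have h1 := (f5 _).1 (hu (j₀.succAbove j)).1
      refine (k5 _).2 ⟨h1.1, fun P hP => ?_⟩
      by_cases h2 : P.under (𝓞 F) ∈ Set.range D.v
      · obtain ⟨i, hi⟩ := h2
        have hi0 : i = j₀ := by
          by_contra hne
          obtain ⟨i', hi'⟩ := Fin.exists_succAbove_eq hne
          exact hP ⟨i', by rw [← hi, ← hi']; rfl⟩
        subst hi0
        refine (f6 _ i).1 ?_ P hi.symm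
        rw [hord i (i.succAbove j), if_neg (Fin.succAbove_ne i j).symm]
      · exact h1.2 P h2
    have hle : ∀ x ∈ UU (sub D j₀.succAbove hinj), x ∈ UU D := by
      intro x hx
      have h1 := (k5 _).1 hx
      refine (f5 _).2 ⟨h1.1, fun P hP => h1.2 P fun h2 => hP ?_⟩
      obtain ⟨i, hi⟩ := h2
      exact ⟨j₀.succAbove i, hi⟩
    have hDS' : DS (sub D j₀.succAbove hinj) n (fun j => u (j₀.succAbove j)) := by
      refine ⟨hn, fun i => ⟨hmem i, (hu _).2⟩, fun i j => ?_⟩
      have h1 := hord (j₀.succAbove i) (j₀.succAbove j)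
      have h2 : (j₀.succAbove i = j₀.succAbove j) ↔ i = j := hinj.eq_iff
      simp only [h2] at h1
      exact h1
    obtain ⟨e, y, h1, h2⟩ := hsubD n (fun j => u (j₀.succAbove j)) hDS'
      (fun i => Sum.elim (fun k => g k) (fun l => fun x : Hˣ => ordZ F (D.w l) (x : H)) (ρ i)) (by
        intro i
        rcases ρ i with k | l
        · exact ⟨fun x hx y hy => (hg k).mul x (hle x hx) y (hle y hy),
            fun σ x hx y hy => (hg k).equiv σ x (hle x hx) y (hle y hy)⟩
        · exact (hPWR F H (sub D j₀.succAbove hinj).T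
            (Set.range (sub D j₀.succAbove hinj).v)).2.2.2 (D.w l))
    refine ⟨e, y, h1, ?_⟩
    rw [← DGS_h_apply, ← DGS_h_apply, ← h2]
    congr 4
    ext1 i
    intro j
    rcases ρ i with k | l
    · rfl
    · exact (hord l (j₀.succAbove j)).symm

end Pool.Agent.VR
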